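import Pool.Agent.Helper40.Nm.Goals

/-!
Traces of the powers of the maximal ideal in a wild extension of prime degree.
-/

open Polynomial Pool.Agent.Helper40.Nm

namespace Pool.Agent.Helper18.Nm

set_option linter.unusedSectionVars false

/-- A totally ramified extension is generated by a uniformizer. -/
theorem adjoin_eq_top {R S : Type} [CommRing R] [IsLocalRing R] [CommRing S] [IsDomain S]
    [IsDiscreteValuationRing S] [Algebra R S] [Module.Finite R S] (n : ℕ)
    (hres : ∀ s : S, ∃ r : R, s - algebraMap R S r ∈ IsLocalRing.maximalIdeal S)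
    (hmap : (IsLocalRing.maximalIdeal R).map (algebraMap R S) = IsLocalRing.maximalIdeal S ^ n)
    (ϖ : S) (hϖ : Irreducible ϖ) : Algebra.adjoin R {ϖ} = ⊤ := by
  have hm : IsLocalRing.maximalIdeal S = Ideal.span {ϖ} :=
    (IsDiscreteValuationRing.irreducible_iff_uniformizer ϖ).mp hϖ
  have key : ∀ k : ℕ, ∀ s : S, ∃ a ∈ Algebra.adjoin R {ϖ}, ∃ s' : S, s = a + ϖ ^ k * s' := by
    intro k
    induction k with
    | zero => exact fun s => ⟨0, zero_mem _, s, by simp⟩
    | succ k ih =>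
      intro s
      obtain ⟨a, ha, s', hs'⟩ := ih s
      obtain ⟨r, hr⟩ := hres s'
      rw [hm, Ideal.mem_span_singleton] at hr
      obtain ⟨s'', hs''⟩ := hr
      refine ⟨a + ϖ ^ k * algebraMap R S r, add_mem ha (mul_mem (pow_mem
        (Algebra.subset_adjoin (Set.mem_singleton _)) _) (Subalgebra.algebraMap_mem _ _)), s'', ?_⟩
      have : s' = algebraMap R S r + ϖ * s'' := by rw [← hs'']; ring
      rw [hs', this]; ring
  have hle : (⊤ : Submodule R S) ≤ Subalgebra.toSubmodule (Algebra.adjoin R {ϖ}) := by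
    refine Submodule.le_of_le_smul_of_le_jacobson_bot (I := IsLocalRing.maximalIdeal R)
      Module.Finite.fg_top (IsLocalRing.maximalIdeal_le_jacobson _) ?_
    intro s _
    obtain ⟨a, ha, s', hs'⟩ := key n s
    rw [hs']
    refine Submodule.add_mem_sup ha ?_
    have h1 : ϖ ^ n * s' ∈ (IsLocalRing.maximalIdeal R).map (algebraMap R S) := by
      rw [hmap, hm, Ideal.span_singleton_pow]
      exact Ideal.mul_mem_right _ _ (Ideal.mem_span_singleton_self _)
    rw [Ideal.smul_top_eq_map]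
    exact h1
  rw [eq_top_iff]
  intro s hs
  exact hle (Submodule.mem_top)

section

variable {R M S E : Type} [CommRing R] [IsDomain R] [IsDiscreteValuationRing R]
    [Field M] [Algebra R M] [IsFractionRing R M] [Field E] [Algebra M E] [Algebra R E]
    [IsScalarTower R M E] [FiniteDimensional M E] [IsGalois M E]
    [CommRing S] [IsDomain S] [IsDiscreteValuationRing S] [Algebra R S] [Algebra S E]
    [IsScalarTower R S E] [IsIntegralClosure S R E]

theorem adjoin_field_eq_top (ϖ : S) (h : Algebra.adjoin R {ϖ} = ⊤) :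
    Algebra.adjoin M {algebraMap S E ϖ} = ⊤ := by
  have hloc : IsLocalization (Algebra.algebraMapSubmonoid S (nonZeroDivisors R)) E :=
    IsIntegralClosure.isLocalization R M E S
  have hS : ∀ s : S, algebraMap S E s ∈ Algebra.adjoin M {algebraMap S E ϖ} := by
    intro s
    have hs : s ∈ Algebra.adjoin R {ϖ} := h ▸ Algebra.mem_top
    have h2 : (IsScalarTower.toAlgHom R S E) s ∈ (Algebra.adjoin R {ϖ}).map
      (IsScalarTower.toAlgHom R S E) := ⟨s, hs, rfl⟩
    rw [AlgHom.map_adjoin_singleton] at h2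
    have h3 : Algebra.adjoin R {(IsScalarTower.toAlgHom R S E) ϖ} ≤
        (Algebra.adjoin M {algebraMap S E ϖ}).restrictScalars R := by
      rw [Algebra.adjoin_le_iff, Set.singleton_subset_iff]
      have h4 : algebraMap S E ϖ ∈ Algebra.adjoin M {algebraMap S E ϖ} :=
        Algebra.subset_adjoin (Set.mem_singleton _)
      exact h4
    exact h3 h2
  rw [eq_top_iff]
  rintro e -
  obtain ⟨s, ⟨_, r, hr, rfl⟩, rfl⟩ := IsLocalization.exists_mk'_eq
    (Algebra.algebraMapSubmonoid S (nonZeroDivisors R)) e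
  have hr0 : algebraMap R M r ≠ 0 := by
    have := nonZeroDivisors.ne_zero hr
    simpa using this
  have h4 : IsLocalization.mk' E s (⟨algebraMap R S r, r, hr, rfl⟩ :
      Algebra.algebraMapSubmonoid S (nonZeroDivisors R)) =
      algebraMap M E (algebraMap R M r)⁻¹ * algebraMap S E s := by
    rw [IsLocalization.mk'_eq_iff_eq_mul]
    have h5 : algebraMap S E (algebraMap R S r) = algebraMap M E (algebraMap R M r) := by
      rw [← IsScalarTower.algebraMap_apply, ← IsScalarTower.algebraMap_apply]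
    change _ = _ * algebraMap S E (algebraMap R S r)
    rw [h5]
    have h6 : algebraMap M E (algebraMap R M r) ≠ 0 := by simpa using hr0
    rw [map_inv₀]
    field_simp
  rw [h4]
  exact mul_mem (Subalgebra.algebraMap_mem _ _) (hS s)


/-- The ramification filtration. -/
def ramSub (R M : Type) {S E : Type} [CommRing R] [IsDomain R] [IsDiscreteValuationRing R]
    [Field M] [Algebra R M] [IsFractionRing R M] [Field E] [Algebra M E] [Algebra R E]
    [IsScalarTower R M E] [FiniteDimensional M E]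
    [CommRing S] [IsDomain S] [IsDiscreteValuationRing S] [Algebra R S] [Algebra S E]
    [IsScalarTower R S E] [IsIntegralClosure S R E] (ϖ : S) (hϖ : Irreducible ϖ) (n : ℕ) :
    Subgroup (E ≃ₐ[M] E) where
  carrier := {σ | ϖ ^ n ∣ galRestrict R M E S σ ϖ - ϖ}
  one_mem' := by simp
  mul_mem' := by
    intro σ τ hσ hτ
    simp only [Set.mem_ofPred_eq] at hσ hτ ⊢
    have h1 : Associated (galRestrict R M E S σ ϖ) ϖ :=
      IsDiscreteValuationRing.associated_of_irreducible S
        ((MulEquiv.irreducible_iff (galRestrict R M E S σ)).mpr hϖ) hϖ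
    have h2 : galRestrict R M E S (σ * τ) ϖ - ϖ =
        galRestrict R M E S σ (galRestrict R M E S τ ϖ - ϖ) + (galRestrict R M E S σ ϖ - ϖ) := by
      rw [map_mul, AlgEquiv.mul_apply, map_sub]; ring
    rw [h2]
    refine dvd_add ?_ hσ
    have h3 := map_dvd (galRestrict R M E S σ) hτ
    rw [map_pow] at h3
    exact ((h1.pow_pow (n := n)).symm.dvd).trans h3
  inv_mem' := by
    intro σ hσ
    simp only [Set.mem_ofPred_eq] at hσ ⊢
    have h1 : Associated (galRestrict R M E S σ⁻¹ ϖ) ϖ :=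
      IsDiscreteValuationRing.associated_of_irreducible S
        ((MulEquiv.irreducible_iff (galRestrict R M E S σ⁻¹)).mpr hϖ) hϖ
    have h3 := map_dvd (galRestrict R M E S σ⁻¹) hσ
    rw [map_pow, map_sub, ← AlgEquiv.mul_apply, ← map_mul, inv_mul_cancel, map_one,
      AlgEquiv.one_apply] at h3
    have h4 := ((h1.pow_pow (n := n)).symm.dvd).trans h3
    rw [← dvd_neg, neg_sub] at h4
    exact h4

theorem mem_ramSub (ϖ : S) (hϖ : Irreducible ϖ) (n : ℕ) (σ : E ≃ₐ[M] E) :
    σ ∈ ramSub R M ϖ hϖ n ↔ ϖ ^ n ∣ galRestrict R M E S σ ϖ - ϖ := Iff.rfl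

theorem eq_one_of_fix (ϖ : S) (h : Algebra.adjoin M {algebraMap S E ϖ} = ⊤) (σ : E ≃ₐ[M] E)
    (hσ : galRestrict R M E S σ ϖ = ϖ) : σ = 1 := by
  have h1 : σ (algebraMap S E ϖ) = algebraMap S E ϖ := by
    rw [← algebraMap_galRestrict_apply R, hσ]
  have h2 : (σ : E →ₐ[M] E) = AlgHom.id M E := by
    refine AlgHom.ext_of_adjoin_eq_top h ?_
    rintro _ rfl
    exact h1
  ext e
  exact DFunLike.congr_fun h2 e

/-- the common valuation of `σϖ - ϖ` -/
theorem exists_val (p : ℕ) [Fact p.Prime] (hp : Module.finrank M E = p) (ϖ : S)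
    (hϖ : Irreducible ϖ) (h : Algebra.adjoin M {algebraMap S E ϖ} = ⊤) :
    ∃ d : ℕ, ∀ σ : E ≃ₐ[M] E, σ ≠ 1 → Associated (galRestrict R M E S σ ϖ - ϖ) (ϖ ^ d) := by
  have hcard : Nat.card (E ≃ₐ[M] E) = p := by rw [IsGalois.card_aut_eq_finrank, hp]
  have : Fact (Nat.card (E ≃ₐ[M] E)).Prime := by rw [hcard]; infer_instance
  have hnt : Nontrivial (E ≃ₐ[M] E) := by
    rw [← Finite.one_lt_card_iff_nontrivial, hcard]
    exact (Fact.out : p.Prime).one_lt
  obtain ⟨σ0, hσ0⟩ := exists_ne (1 : E ≃ₐ[M] E)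
  have hne : galRestrict R M E S σ0 ϖ - ϖ ≠ 0 := fun h0 =>
    hσ0 (eq_one_of_fix (R := R) ϖ h σ0 (sub_eq_zero.mp h0))
  obtain ⟨d, hd⟩ := IsDiscreteValuationRing.associated_pow_irreducible hne hϖ
  refine ⟨d, fun σ hσ => ?_⟩
  have hne' : galRestrict R M E S σ ϖ - ϖ ≠ 0 := fun h0 =>
    hσ (eq_one_of_fix (R := R) ϖ h σ (sub_eq_zero.mp h0))
  obtain ⟨e, he⟩ := IsDiscreteValuationRing.associated_pow_irreducible hne' hϖ
  have key : ∀ n : ℕ, ϖ ^ n ∣ galRestrict R M E S σ0 ϖ - ϖ ↔
      ϖ ^ n ∣ galRestrict R M E S σ ϖ - ϖ := by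
    intro n
    change σ0 ∈ ramSub R M (E := E) ϖ hϖ n ↔ σ ∈ ramSub R M (E := E) ϖ hϖ n
    rcases Subgroup.eq_bot_or_eq_top_of_prime_card (ramSub R M (E := E) ϖ hϖ n) with h1 | h1
    · rw [h1, Subgroup.mem_bot, Subgroup.mem_bot]
      simp [hσ0, hσ]
    · rw [h1]; simp
  have h1 : d ≤ e := by
    have := (key d).mp hd.symm.dvd
    rw [he.dvd_iff_dvd_right] at this
    exact (pow_dvd_pow_iff hϖ.ne_zero hϖ.not_isUnit).mp this
  have h2 : e ≤ d := by
    have := (key e).mpr he.symm.dvd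
    rw [hd.dvd_iff_dvd_right] at this
    exact (pow_dvd_pow_iff hϖ.ne_zero hϖ.not_isUnit).mp this
  rw [le_antisymm h1 h2]
  exact he


/-- wildness: `σϖ - ϖ` is divisible by `ϖ²` -/
theorem sq_dvd (p : ℕ) [Fact p.Prime] [CharP (IsLocalRing.ResidueField R) p]
    (hloc : IsLocalHom (algebraMap R S))
    (hres : ∀ s : S, ∃ r : R, s - algebraMap R S r ∈ IsLocalRing.maximalIdeal S)
    (ϖ : S) (hϖ : Irreducible ϖ) (σ : E ≃ₐ[M] E) (hσ : σ ^ p = 1) :
    ϖ ^ 2 ∣ galRestrict R M E S σ ϖ - ϖ := by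
  have hm : IsLocalRing.maximalIdeal S = Ideal.span {ϖ} :=
    (IsDiscreteValuationRing.irreducible_iff_uniformizer ϖ).mp hϖ
  set τ : S ≃ₐ[R] S := galRestrict R M E S σ with hτ
  have hτp : τ ^ p = 1 := by rw [hτ, ← map_pow, hσ, map_one]
  have hτϖ : Irreducible (τ ϖ) := (MulEquiv.irreducible_iff τ).mpr hϖ
  obtain ⟨u, hu⟩ := (IsDiscreteValuationRing.associated_of_irreducible S hϖ hτϖ)
  -- τ acts trivially on the residue field
  have htriv : ∀ s : S, τ s - s ∈ IsLocalRing.maximalIdeal S := by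
    intro s
    obtain ⟨r, hr⟩ := hres s
    have h1 : τ (s - algebraMap R S r) ∈ IsLocalRing.maximalIdeal S := by
      rw [hm, Ideal.mem_span_singleton] at hr ⊢
      have h3 := map_dvd τ hr
      exact (IsDiscreteValuationRing.associated_of_irreducible S hϖ hτϖ).dvd.trans h3
    have h2 : τ s - s = τ (s - algebraMap R S r) - (s - algebraMap R S r) := by
      rw [map_sub, AlgEquiv.commutes]; ring
    rw [h2]
    exact sub_mem h1 hr
  have hpow : ∀ k : ℕ, ∃ v : S, (τ ^ k) ϖ = ϖ * v ∧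
      v - (u : S) ^ k ∈ IsLocalRing.maximalIdeal S := by
    intro k
    induction k with
    | zero => exact ⟨1, by simp, by simp⟩
    | succ k ih =>
      obtain ⟨v, hv, hv2⟩ := ih
      refine ⟨u * τ v, ?_, ?_⟩
      · rw [pow_succ', AlgEquiv.mul_apply, hv, map_mul, ← hu]; ring
      · have h2 : (u : S) * τ v - (u : S) ^ (k + 1) =
            u * (τ v - v) + u * (v - (u : S) ^ k) := by ring
        rw [h2]
        exact add_mem (Ideal.mul_mem_left _ _ (htriv v)) (Ideal.mul_mem_left _ _ hv2)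
  obtain ⟨v, hv, hv2⟩ := hpow p
  rw [hτp, AlgEquiv.one_apply] at hv
  have hv1 : v = 1 := by
    have : ϖ * v = ϖ * 1 := by rw [← hv, mul_one]
    exact mul_left_cancel₀ hϖ.ne_zero this
  rw [hv1] at hv2
  obtain ⟨r, hr⟩ := hres (u : S)
  have h3 : algebraMap R S (1 - r ^ p) ∈ IsLocalRing.maximalIdeal S := by
    have h4 : algebraMap R S (1 - r ^ p) = (1 - (u : S) ^ p) +
        ((u : S) ^ p - algebraMap R S r ^ p) := by
      rw [map_sub, map_one, map_pow]; ring
    rw [h4]
    exact add_mem hv2 (Ideal.mem_of_dvd _ (sub_dvd_pow_sub_pow _ _ p) hr)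
  have h5 : (1 - r ^ p) ∈ IsLocalRing.maximalIdeal R := by
    rw [IsLocalRing.mem_maximalIdeal, mem_nonunits_iff] at h3 ⊢
    exact fun h => h3 (h.map _)
  have h6 : (IsLocalRing.residue R r) ^ p = 1 := by
    rw [← map_pow, ← map_one (IsLocalRing.residue R), eq_comm, ← sub_eq_zero, ← map_sub,
      IsLocalRing.residue_eq_zero_iff]
    exact h5
  have h7 : IsLocalRing.residue R r = 1 := by
    have h8 : (IsLocalRing.residue R r - 1) ^ p = 0 := by
      rw [sub_pow_char, h6, one_pow, sub_self]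
    have := pow_eq_zero_iff (Fact.out : p.Prime).ne_zero |>.mp h8
    exact sub_eq_zero.mp this
  have h9 : r - 1 ∈ IsLocalRing.maximalIdeal R := by
    rw [← IsLocalRing.residue_eq_zero_iff, map_sub, h7, map_one, sub_self]
  have h10 : algebraMap R S (r - 1) ∈ IsLocalRing.maximalIdeal S := by
    rw [IsLocalRing.mem_maximalIdeal, mem_nonunits_iff] at h9 ⊢
    exact fun h => h9 (hloc.map_nonunit _ h)
  have h11 : (u : S) - 1 ∈ IsLocalRing.maximalIdeal S := by
    have : (u : S) - 1 = (u - algebraMap R S r) + algebraMap R S (r - 1) := by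
      rw [map_sub, map_one]; ring
    rw [this]
    exact add_mem hr h10
  rw [hm, Ideal.mem_span_singleton] at h11
  have h12 : τ ϖ - ϖ = ϖ * ((u : S) - 1) := by rw [← hu]; ring
  rw [h12, pow_two]
  exact mul_dvd_mul_left _ h11


open Classical in
/-- the value of the derivative of the minimal polynomial -/
theorem deriv_val (p : ℕ) [Fact p.Prime] (hp : Module.finrank M E = p) (ϖ : S)
    (h : Algebra.adjoin M {algebraMap S E ϖ} = ⊤) (d : ℕ)
    (hd : ∀ σ : E ≃ₐ[M] E, σ ≠ 1 → Associated (galRestrict R M E S σ ϖ - ϖ) (ϖ ^ d)) :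
    ∃ u : Sˣ, aeval (algebraMap S E ϖ) (derivative (minpoly M (algebraMap S E ϖ))) =
      algebraMap S E (u * ϖ ^ ((p - 1) * d)) := by
  set x := algebraMap S E ϖ with hx
  have hcard : Fintype.card (E ≃ₐ[M] E) = p := by
    rw [← Nat.card_eq_fintype_card, IsGalois.card_aut_eq_finrank, hp]
  have hint : IsIntegral M x := Algebra.IsIntegral.isIntegral x
  have hmon := minpoly.monic hint
  set F := (minpoly M x).map (algebraMap M E) with hF
  have hFm : F.Monic := hmon.map _
  have hinj : Function.Injective (fun σ : E ≃ₐ[M] E => σ x) := by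
    intro σ τ hst
    have h2 : (σ : E →ₐ[M] E) = (τ : E →ₐ[M] E) := by
      refine AlgHom.ext_of_adjoin_eq_top h ?_
      rintro _ rfl
      exact hst
    ext e
    exact DFunLike.congr_fun h2 e
  have hroots : F.roots = (Finset.univ : Finset (E ≃ₐ[M] E)).val.map (fun σ => σ x) := by
    symm
    apply Multiset.eq_of_le_of_card_le
    · rw [Multiset.le_iff_subset]
      · intro y hy
        obtain ⟨σ, -, rfl⟩ := Multiset.mem_map.mp hy
        rw [mem_roots hFm.ne_zero, IsRoot.def, hF, eval_map_algebraMap]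
        change aeval (σ.toAlgHom x) _ = 0
        rw [aeval_algHom_apply, minpoly.aeval, map_zero]
      · exact (Finset.univ.nodup).map hinj
    · refine (card_roots' F).trans ?_
      rw [Multiset.card_map, Finset.card_val, Finset.card_univ, hcard, ← hp, hF, natDegree_map]
      exact minpoly.natDegree_le x
  have hsplit : F.Splits := Normal.splits inferInstance x
  have h1 : aeval x (derivative (minpoly M x)) = eval x (derivative F) := by
    rw [hF, derivative_map, eval_map_algebraMap]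
  have hxr : x ∈ F.roots := by
    rw [hroots, Multiset.mem_map]
    exact ⟨1, Finset.mem_univ _, rfl⟩
  have h2 : F.roots.erase x =
      ((Finset.univ : Finset (E ≃ₐ[M] E)).erase 1).val.map (fun σ => σ x) := by
    rw [hroots, Finset.erase_val, Multiset.map_erase _ hinj]
    rfl
  rw [h1, hsplit.eval_root_derivative hFm hxr, h2, Multiset.map_map]
  have h3 : (Multiset.map ((fun y => x - y) ∘ fun σ : E ≃ₐ[M] E => σ x)
      ((Finset.univ : Finset (E ≃ₐ[M] E)).erase 1).val).prod =
      ∏ σ ∈ (Finset.univ : Finset (E ≃ₐ[M] E)).erase 1, algebraMap S E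
        (ϖ - galRestrict R M E S σ ϖ) := by
    refine Finset.prod_congr rfl fun σ _ => ?_
    simp only [Function.comp_apply]
    rw [map_sub, algebraMap_galRestrict_apply]
  rw [h3, ← map_prod]
  have h4 : Associated (∏ σ ∈ (Finset.univ : Finset (E ≃ₐ[M] E)).erase 1,
      (ϖ - galRestrict R M E S σ ϖ)) (ϖ ^ ((p - 1) * d)) := by
    have h5 : Associated (∏ σ ∈ (Finset.univ : Finset (E ≃ₐ[M] E)).erase 1,
        (ϖ - galRestrict R M E S σ ϖ))
        (∏ σ ∈ (Finset.univ : Finset (E ≃ₐ[M] E)).erase 1, ϖ ^ d) := by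
      refine Associated.prod _ _ _ fun σ hσ => ?_
      rw [← neg_sub]
      exact (Associated.neg_left (hd σ (Finset.ne_of_mem_erase hσ)))
    rw [Finset.prod_const, Finset.card_erase_of_mem (Finset.mem_univ _), Finset.card_univ,
      hcard, ← pow_mul, mul_comm d] at h5
    exact h5
  obtain ⟨u, hu⟩ := h4.symm
  exact ⟨u, by rw [← hu]; ring_nf⟩


open Pointwise in
/-- the trace dual of `S` -/
theorem dual_iff (ϖ : S) (hR : Algebra.adjoin R {ϖ} = ⊤)
    (h : Algebra.adjoin M {algebraMap S E ϖ} = ⊤) (y : E) :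
    (∀ s : S, ∃ r : R, algebraMap R M r = Algebra.trace M E (y * algebraMap S E s)) ↔
    ∃ s : S, aeval (algebraMap S E ϖ) (derivative (minpoly M (algebraMap S E ϖ))) * y =
      algebraMap S E s := by
  set x := algebraMap S E ϖ with hx
  set c := aeval x (derivative (minpoly M x)) with hc
  have hint : IsIntegral R x :=
    (IsIntegralClosure.isIntegral R E ϖ).map (IsScalarTower.toAlgHom R S E)
  have hc0 : c ≠ 0 := by
    have hs : (minpoly M x).Separable := Algebra.IsSeparable.isSeparable M x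
    exact hs.aeval_derivative_ne_zero (minpoly.aeval M x)
  have hadj : ∀ z : E, z ∈ Algebra.adjoin R {x} ↔ ∃ s : S, algebraMap S E s = z := by
    intro z
    have h1 : Algebra.adjoin R {x} = (Algebra.adjoin R {ϖ}).map (IsScalarTower.toAlgHom R S E) := by
      rw [AlgHom.map_adjoin_singleton]; rfl
    rw [h1, hR]
    simp
  have hdual := traceForm_dualSubmodule_adjoin R M h hint
  rw [← hc] at hdual
  have hL : (∀ s : S, ∃ r : R, algebraMap R M r = Algebra.trace M E (y * algebraMap S E s)) ↔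
      y ∈ (Algebra.traceForm M E).dualSubmodule (Subalgebra.toSubmodule (Algebra.adjoin R {x})) := by
    rw [LinearMap.BilinForm.mem_dualSubmodule]
    constructor
    · intro H z hz
      obtain ⟨s, rfl⟩ := (hadj z).mp hz
      rw [Submodule.mem_one]
      obtain ⟨r, hr⟩ := H s
      exact ⟨r, hr⟩
    · intro H s
      have := H (algebraMap S E s) ((hadj _).mpr ⟨s, rfl⟩)
      rw [Submodule.mem_one] at this
      obtain ⟨r, hr⟩ := this
      exact ⟨r, hr⟩
  rw [hL, hdual]
  constructor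
  · intro H
    obtain ⟨z, hz, rfl⟩ := Submodule.mem_smul_pointwise_iff_exists _ _ _ |>.mp H
    obtain ⟨s, rfl⟩ := (hadj z).mp hz
    refine ⟨s, ?_⟩
    rw [smul_eq_mul, mul_inv_cancel_left₀ hc0]
  · rintro ⟨s, hs⟩
    refine Submodule.mem_smul_pointwise_iff_exists _ _ _ |>.mpr
      ⟨algebraMap S E s, (hadj _).mpr ⟨s, rfl⟩, ?_⟩
    rw [← hs, smul_eq_mul, inv_mul_cancel_left₀ hc0]


end

/-- the last step -/
theorem final {R M S E : Type} [CommRing R] [IsDomain R] [IsDiscreteValuationRing R]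
    [Field M] [Algebra R M] [IsFractionRing R M] [Field E] [Algebra M E] [Algebra R E]
    [IsScalarTower R M E] [FiniteDimensional M E] [IsGalois M E]
    [CommRing S] [IsDomain S] [IsDiscreteValuationRing S] [Algebra R S] [Algebra S E]
    [IsScalarTower R S E] [IsFractionRing S E] (p δ : ℕ) (hp : 0 < p)
    (hmap : (IsLocalRing.maximalIdeal R).map (algebraMap R S) = IsLocalRing.maximalIdeal S ^ p)
    (ϖ : S) (hϖ : Irreducible ϖ)
    (hdual : ∀ y : E,
      (∀ s : S, ∃ r : R, algebraMap R M r = Algebra.trace M E (y * algebraMap S E s)) ↔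
      ∃ s : S, algebraMap S E (ϖ ^ δ) * y = algebraMap S E s) (m : ℕ) (x : R) :
    (∃ s ∈ IsLocalRing.maximalIdeal S ^ m,
        algebraMap R M x = Algebra.trace M E (algebraMap S E s)) ↔
      x ∈ IsLocalRing.maximalIdeal R ^ ((δ + m) / p) := by
  have hm : IsLocalRing.maximalIdeal S = Ideal.span {ϖ} :=
    (IsDiscreteValuationRing.irreducible_iff_uniformizer ϖ).mp hϖ
  obtain ⟨π, hπ⟩ := IsDiscreteValuationRing.exists_irreducible R
  have hmR : IsLocalRing.maximalIdeal R = Ideal.span {π} :=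
    (IsDiscreteValuationRing.irreducible_iff_uniformizer π).mp hπ
  have hassoc : Associated (algebraMap R S π) (ϖ ^ p) := by
    rw [hmR, hm, Ideal.map_span, Set.image_singleton, Ideal.span_singleton_pow] at hmap
    exact Ideal.span_singleton_eq_span_singleton.mp hmap
  have hassoc' : ∀ c : ℕ, Associated (algebraMap R S (π ^ c)) (ϖ ^ (p * c)) := by
    intro c
    rw [map_pow, pow_mul]
    exact hassoc.pow_pow
  have hinjM : Function.Injective (algebraMap R M) := IsFractionRing.injective R M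
  have hinjE : Function.Injective (algebraMap S E) := IsFractionRing.injective S E
  have hinjME : Function.Injective (algebraMap M E) := (algebraMap M E).injective
  have hπ0 : ∀ c : ℕ, algebraMap R M (π ^ c) ≠ 0 := by
    intro c
    rw [map_pow]
    exact pow_ne_zero _ (by simpa using hπ.ne_zero)
  have hπE : ∀ c : ℕ, algebraMap M E (algebraMap R M (π ^ c)) =
      algebraMap S E (algebraMap R S (π ^ c)) := by
    intro c
    rw [← IsScalarTower.algebraMap_apply, ← IsScalarTower.algebraMap_apply]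
  -- the element y_c
  have key : ∀ c : ℕ, (∀ s : S, ∃ r : R, algebraMap R M (π ^ c * r) =
      Algebra.trace M E (algebraMap S E (ϖ ^ m * s))) ↔ p * c ≤ δ + m := by
    intro c
    have h1 := hdual (algebraMap M E (algebraMap R M (π ^ c))⁻¹ * algebraMap S E (ϖ ^ m))
    have h2 : (∀ s : S, ∃ r : R, algebraMap R M (π ^ c * r) =
        Algebra.trace M E (algebraMap S E (ϖ ^ m * s))) ↔
        (∀ s : S, ∃ r : R, algebraMap R M r = Algebra.trace M E
          (algebraMap M E (algebraMap R M (π ^ c))⁻¹ * algebraMap S E (ϖ ^ m) *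
            algebraMap S E s)) := by
      refine forall_congr' fun s => exists_congr fun r => ?_
      rw [mul_assoc, ← map_mul, ← Algebra.smul_def, map_smul, smul_eq_mul, map_mul (algebraMap R M)]
      constructor
      · intro h; rw [← h, inv_mul_cancel_left₀ (hπ0 c)]
      · intro h; rw [h, mul_inv_cancel_left₀ (hπ0 c)]
    rw [h2, h1]
    constructor
    · rintro ⟨s, hs⟩
      have h3 : algebraMap S E (ϖ ^ (δ + m)) = algebraMap S E (algebraMap R S (π ^ c) * s) := by
        rw [map_mul, ← hs, ← hπE, map_inv₀, pow_add, map_mul]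
        have h4 : algebraMap M E (algebraMap R M (π ^ c)) ≠ 0 := by
          rw [Ne, map_eq_zero]; exact hπ0 c
        field_simp
      have h5 := hinjE h3
      have h6 : ϖ ^ (p * c) ∣ ϖ ^ (δ + m) := by
        rw [h5]; exact (hassoc' c).symm.dvd.trans (dvd_mul_right _ _)
      exact (pow_dvd_pow_iff hϖ.ne_zero hϖ.not_isUnit).mp h6
    · intro hle
      have h6 : algebraMap R S (π ^ c) ∣ ϖ ^ (δ + m) :=
        (hassoc' c).dvd.trans (pow_dvd_pow _ hle)
      obtain ⟨s, hs⟩ := h6
      refine ⟨s, ?_⟩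
      have h4 : algebraMap S E (algebraMap R S (π ^ c)) ≠ 0 := by
        rw [← hπE, Ne, map_eq_zero]; exact hπ0 c
      have h7 : algebraMap S E (ϖ ^ δ) * algebraMap S E (ϖ ^ m) =
          algebraMap S E (algebraMap R S (π ^ c)) * algebraMap S E s := by
        rw [← map_mul, ← map_mul, ← pow_add, hs]
      rw [map_inv₀, hπE]
      field_simp
      rw [h7]
  have hmem : ∀ s : S, s ∈ IsLocalRing.maximalIdeal S ^ m ↔ ∃ s', s = ϖ ^ m * s' := by
    intro s
    rw [hm, Ideal.span_singleton_pow, Ideal.mem_span_singleton]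
    rfl
  have hmemR : ∀ (c : ℕ) (r : R), r ∈ IsLocalRing.maximalIdeal R ^ c ↔ π ^ c ∣ r := by
    intro c r
    rw [hmR, Ideal.span_singleton_pow, Ideal.mem_span_singleton]
  set c := (δ + m) / p with hc
  constructor
  · rintro ⟨s, hs, hx⟩
    obtain ⟨s', rfl⟩ := (hmem s).mp hs
    obtain ⟨r, hr⟩ := (key c).mpr (Nat.mul_div_le _ _) s'
    rw [← hr] at hx
    rw [hmemR, hinjM hx]
    exact dvd_mul_right _ _
  · intro hx
    have h1 : ¬ (∀ s : S, ∃ r : R, algebraMap R M (π ^ (c + 1) * r) =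
        Algebra.trace M E (algebraMap S E (ϖ ^ m * s))) := by
      rw [key, not_le]
      have := Nat.lt_mul_div_succ (δ + m) hp
      simpa [hc] using this
    rw [not_forall] at h1
    obtain ⟨s, hs⟩ := h1
    obtain ⟨r, hr⟩ := (key c).mpr (Nat.mul_div_le _ _) s
    have h2 : ¬ π ∣ r := by
      rintro ⟨r', rfl⟩
      exact hs ⟨r', by rw [← hr]; ring_nf⟩
    have h3 : IsUnit r := by
      by_contra h4
      have h5 : r ∈ IsLocalRing.maximalIdeal R := (IsLocalRing.mem_maximalIdeal r).mpr h4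
      rw [hmR, Ideal.mem_span_singleton] at h5
      exact h2 h5
    obtain ⟨r, rfl⟩ := h3
    rw [hmemR] at hx
    obtain ⟨x', rfl⟩ := hx
    refine ⟨ϖ ^ m * s * algebraMap R S ((r⁻¹ : Rˣ) * x'), ?_, ?_⟩
    · rw [hmem]
      exact ⟨s * algebraMap R S ((r⁻¹ : Rˣ) * x'), by ring⟩
    · have h6 : algebraMap S E (ϖ ^ m * s * algebraMap R S ((r⁻¹ : Rˣ) * x')) =
          (algebraMap R M ((r⁻¹ : Rˣ) * x')) • algebraMap S E (ϖ ^ m * s) := by
        rw [map_mul (algebraMap S E) (ϖ ^ m * s), Algebra.smul_def,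
          ← IsScalarTower.algebraMap_apply, ← IsScalarTower.algebraMap_apply, mul_comm]
      rw [h6, map_smul, ← hr, smul_eq_mul, ← map_mul]
      congr 1
      have h7 : (r⁻¹ : Rˣ) * (r : R) = 1 := Units.inv_mul r
      calc π ^ c * x' = π ^ c * x' * ((r⁻¹ : Rˣ) * (r : R)) := by rw [h7, mul_one]
        _ = (r⁻¹ : Rˣ) * x' * (π ^ c * r) := by ring

theorem trc : EXT → TRC := by
  intro hEXT R M S E _ _ _ _ _ _ _ _ _ _ _ _ _ _ _ _ _ _ _ _ _ p _ _ hp
  obtain ⟨hfr, hfin, hfree, hdvr, -, -, hloc, hres, hmap⟩ := hEXT R M S E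
  rw [hp] at hmap
  obtain ⟨ϖ, hϖ⟩ := IsDiscreteValuationRing.exists_irreducible S
  have hadj := adjoin_eq_top p hres hmap ϖ hϖ
  have hadjM : Algebra.adjoin M {algebraMap S E ϖ} = ⊤ := adjoin_field_eq_top (R := R) ϖ hadj
  obtain ⟨d, hd⟩ := exists_val (R := R) p hp ϖ hϖ hadjM
  have hpp : p.Prime := Fact.out
  have hcard : Nat.card (E ≃ₐ[M] E) = p := by rw [IsGalois.card_aut_eq_finrank, hp]
  have hd2 : 2 ≤ d := by
    have hnt : Nontrivial (E ≃ₐ[M] E) := by
      rw [← Finite.one_lt_card_iff_nontrivial, hcard]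
      exact hpp.one_lt
    obtain ⟨σ0, hσ0⟩ := exists_ne (1 : E ≃ₐ[M] E)
    have h1 := sq_dvd p hloc hres ϖ hϖ σ0 (by rw [← hcard]; exact pow_card_eq_one')
    rw [(hd σ0 hσ0).dvd_iff_dvd_right] at h1
    exact (pow_dvd_pow_iff hϖ.ne_zero hϖ.not_isUnit).mp h1
  obtain ⟨u, hu⟩ := deriv_val (R := R) p hp ϖ hadjM d hd
  refine ⟨d - 1, by omega, fun m x => ?_⟩
  have hd1 : d - 1 + 1 = d := by omega
  rw [hd1]
  refine final p ((p - 1) * d) hpp.pos hmap ϖ hϖ (fun y => ?_) m x
  rw [dual_iff ϖ hadj hadjM y, hu, map_mul]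
  constructor
  · rintro ⟨s, hs⟩
    refine ⟨(u⁻¹ : Sˣ) * s, ?_⟩
    rw [map_mul, ← hs, ← mul_assoc, ← mul_assoc, ← map_mul, Units.inv_mul, map_one, one_mul]
  · rintro ⟨s, hs⟩
    exact ⟨u * s, by rw [map_mul, ← hs, mul_assoc]⟩

end Pool.Agent.Helper18.Nm
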